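import Pool.Agent.Helper39.Trans.Goals2

/-!
# MP_549fdb_co, packet AV: averaging over the subsets
-/

namespace Pool.Agent.Helper74.Tr

open Finset Classical Pool.Agent.Helper39.Trans

theorem averaging : Averaging := by
  intro Λ Q _ _ D K s M S hD hK hM
  set X : Finset Q := univ.filter fun q => D q ⊆ S ∧ (K q ∩ S).card ≤ 1 with hX
  -- every `q ∈ X` has many admissible subsets
  have key : ∀ q ∈ X, 2 ^ S.card ≤ 2 ^ (s + 1) *
      (S.powerset.filter fun S' => D q ⊆ S' ∧ Disjoint (K q) S').card := by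
    intro q hq
    rw [hX, mem_filter] at hq
    obtain ⟨-, hDS, hKS⟩ := hq
    have hsub : D q ⊆ S \ K q := by
      intro x hx
      rw [mem_sdiff]
      exact ⟨hDS hx, fun h => (Finset.disjoint_left.mp (hK q) hx h)⟩
    have hIcc : Finset.Icc (D q) (S \ K q) ⊆
        S.powerset.filter fun S' => D q ⊆ S' ∧ Disjoint (K q) S' := by
      intro S' hS'
      rw [Finset.mem_Icc] at hS'
      rw [mem_filter, mem_powerset]
      refine ⟨hS'.2.trans sdiff_subset, hS'.1, ?_⟩
      rw [Finset.disjoint_left]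
      intro x hx hx'
      exact (mem_sdiff.mp (hS'.2 hx')).2 hx
    have hc := Finset.card_le_card hIcc
    rw [Finset.card_Icc_finset hsub] at hc
    have h1 : (S \ K q).card + (K q ∩ S).card = S.card := by
      rw [Finset.inter_comm]
      exact Finset.card_sdiff_add_card_inter S (K q)
    have h2 := Finset.card_le_card hsub
    have h3 := hD q
    calc 2 ^ S.card ≤ 2 ^ ((s + 1) + ((S \ K q).card - (D q).card)) :=
          Nat.pow_le_pow_right (by norm_num) (by omega)
      _ = 2 ^ (s + 1) * 2 ^ ((S \ K q).card - (D q).card) := pow_add _ _ _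
      _ ≤ _ := Nat.mul_le_mul_left _ hc
  have hdouble : ∑ q ∈ X, (S.powerset.filter fun S' => D q ⊆ S' ∧ Disjoint (K q) S').card ≤
      2 ^ S.card * M := by
    calc ∑ q ∈ X, (S.powerset.filter fun S' => D q ⊆ S' ∧ Disjoint (K q) S').card
        ≤ ∑ q, (S.powerset.filter fun S' => D q ⊆ S' ∧ Disjoint (K q) S').card :=
          Finset.sum_le_sum_of_subset (Finset.subset_univ _)
      _ = ∑ S' ∈ S.powerset, (univ.filter fun q => D q ⊆ S' ∧ Disjoint (K q) S').card := by
          simp only [Finset.card_filter]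
          exact Finset.sum_comm
      _ ≤ ∑ S' ∈ S.powerset, M := Finset.sum_le_sum fun S' hS' => hM S' (mem_powerset.mp hS')
      _ = 2 ^ S.card * M := by rw [Finset.sum_const, card_powerset, smul_eq_mul]
  have h : X.card * 2 ^ S.card ≤ 2 ^ (s + 1) * M * 2 ^ S.card := by
    calc X.card * 2 ^ S.card = ∑ q ∈ X, 2 ^ S.card := by rw [Finset.sum_const, smul_eq_mul]
      _ ≤ ∑ q ∈ X, 2 ^ (s + 1) *
          (S.powerset.filter fun S' => D q ⊆ S' ∧ Disjoint (K q) S').card :=
          Finset.sum_le_sum key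
      _ = 2 ^ (s + 1) * ∑ q ∈ X,
          (S.powerset.filter fun S' => D q ⊆ S' ∧ Disjoint (K q) S').card := by
          rw [Finset.mul_sum]
      _ ≤ 2 ^ (s + 1) * (2 ^ S.card * M) := Nat.mul_le_mul_left _ hdouble
      _ = 2 ^ (s + 1) * M * 2 ^ S.card := by ring
  exact Nat.le_of_mul_le_mul_right h (by positivity)

end Pool.Agent.Helper74.Tr
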